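import Mathlib

/-! Weighted power means with exponent `1/2` and Schatten metrics (helper47, MP_9bce2c_an). -/

set_option autoImplicit false

namespace Pool.Agent.K4H47.PM

open Matrix Finset
open scoped ComplexOrder

variable {n : ℕ}

/-- the `ℓ_q` norm -/
noncomputable def lq (q : ENNReal) (x : Fin n → ℝ) : ℝ :=
  ‖(WithLp.toLp q x : PiLp q fun _ : Fin n => ℝ)‖

/-- real parts of the diagonal entries of `Vᴴ A V` -/
noncomputable def dg (V A : Matrix (Fin n) (Fin n) ℂ) (i : Fin n) : ℝ := ((Vᴴ * A * V) i i).re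

theorem dg_add (V A B : Matrix (Fin n) (Fin n) ℂ) : dg V (A + B) = dg V A + dg V B := by
  funext i
  simp [dg, Matrix.mul_add, Matrix.add_mul]

theorem dg_sub (V A B : Matrix (Fin n) (Fin n) ℂ) : dg V (A - B) = dg V A - dg V B := by
  funext i
  simp [dg, Matrix.mul_sub, Matrix.sub_mul]

theorem dg_smul (V A : Matrix (Fin n) (Fin n) ℂ) (r : ℝ) : dg V ((r : ℂ) • A) = r • dg V A := by
  funext i
  simp [dg, Matrix.mul_smul, Matrix.smul_mul]

/-- the eigenvector matrix -/
noncomputable def U {A : Matrix (Fin n) (Fin n) ℂ} (hA : A.IsHermitian) :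
    Matrix (Fin n) (Fin n) ℂ := (hA.eigenvectorUnitary : Matrix (Fin n) (Fin n) ℂ)

theorem U_left {A : Matrix (Fin n) (Fin n) ℂ} (hA : A.IsHermitian) : (U hA)ᴴ * U hA = 1 := by
  have := (Matrix.mem_unitaryGroup_iff' (A := U hA)).1 hA.eigenvectorUnitary.2
  exact this

theorem U_right {A : Matrix (Fin n) (Fin n) ℂ} (hA : A.IsHermitian) : U hA * (U hA)ᴴ = 1 := by
  have := (Matrix.mem_unitaryGroup_iff (A := U hA)).1 hA.eigenvectorUnitary.2
  exact this

theorem spec {A : Matrix (Fin n) (Fin n) ℂ} (hA : A.IsHermitian) :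
    A = U hA * diagonal (fun i => (hA.eigenvalues i : ℂ)) * (U hA)ᴴ := by
  have := hA.spectral_theorem
  rw [Unitary.conjStarAlgAut_apply] at this
  exact this

theorem spec' {A : Matrix (Fin n) (Fin n) ℂ} (hA : A.IsHermitian) :
    (U hA)ᴴ * A * U hA = diagonal (fun i => (hA.eigenvalues i : ℂ)) := by
  refine (congrArg (fun B => (U hA)ᴴ * B * U hA) (spec hA)).trans ?_
  show (U hA)ᴴ * (U hA * diagonal (fun i => (hA.eigenvalues i : ℂ)) * (U hA)ᴴ) * U hA = _
  rw [show (U hA)ᴴ * (U hA * diagonal (fun i => (hA.eigenvalues i : ℂ)) * (U hA)ᴴ) * U hA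
    = ((U hA)ᴴ * U hA) * diagonal (fun i => (hA.eigenvalues i : ℂ)) * ((U hA)ᴴ * U hA) by
    simp only [Matrix.mul_assoc], U_left, Matrix.one_mul, Matrix.mul_one]

theorem dg_self {A : Matrix (Fin n) (Fin n) ℂ} (hA : A.IsHermitian) :
    dg (U hA) A = hA.eigenvalues := by
  funext i
  rw [dg, spec', diagonal_apply_eq, Complex.ofReal_re]

/-- the doubly stochastic matrix of two orthonormal bases -/
noncomputable def W (V P : Matrix (Fin n) (Fin n) ℂ) : Matrix (Fin n) (Fin n) ℝ :=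
  Matrix.of fun i j => ‖(Vᴴ * P) i j‖ ^ 2

theorem W_ds {V P : Matrix (Fin n) (Fin n) ℂ} (hV : V * Vᴴ = 1) (hP : P * Pᴴ = 1)
    (hV' : Vᴴ * V = 1) (hP' : Pᴴ * P = 1) : W V P ∈ doublyStochastic ℝ (Fin n) := by
  set Q := Vᴴ * P with hQ
  have h1 : Q * Qᴴ = 1 := by
    rw [hQ, conjTranspose_mul, conjTranspose_conjTranspose,
      show Vᴴ * P * (Pᴴ * V) = Vᴴ * (P * Pᴴ) * V by simp only [Matrix.mul_assoc], hP,
      Matrix.mul_one, hV']
  have h2 : Qᴴ * Q = 1 := by
    rw [hQ, conjTranspose_mul, conjTranspose_conjTranspose,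
      show Pᴴ * V * (Vᴴ * P) = Pᴴ * (V * Vᴴ) * P by simp only [Matrix.mul_assoc], hV,
      Matrix.mul_one, hP']
  rw [mem_doublyStochastic_iff_sum]
  refine ⟨fun i j => by simp only [W, Matrix.of_apply]; positivity, fun i => ?_, fun j => ?_⟩
  · have := congrFun (congrFun h1 i) i
    rw [Matrix.mul_apply, Matrix.one_apply_eq] at this
    have h3 := congrArg Complex.re this
    rw [Complex.re_sum, Complex.one_re] at h3
    rw [← h3]
    refine Finset.sum_congr rfl fun j _ => ?_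
    simp only [W, Matrix.of_apply, conjTranspose_apply, ← hQ]
    rw [RCLike.star_def, Complex.mul_conj, Complex.ofReal_re, Complex.normSq_eq_norm_sq]
  · have := congrFun (congrFun h2 j) j
    rw [Matrix.mul_apply, Matrix.one_apply_eq] at this
    have h3 := congrArg Complex.re this
    rw [Complex.re_sum, Complex.one_re] at h3
    rw [← h3]
    refine Finset.sum_congr rfl fun i _ => ?_
    simp only [W, Matrix.of_apply, conjTranspose_apply, ← hQ]
    rw [RCLike.star_def, mul_comm, Complex.mul_conj, Complex.ofReal_re,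
      Complex.normSq_eq_norm_sq]

/-- the diagonal of `P D Pᴴ` in the basis `V` -/
theorem dg_diag (V P : Matrix (Fin n) (Fin n) ℂ) (x : Fin n → ℝ) :
    dg V (P * diagonal (fun i => (x i : ℂ)) * Pᴴ) = (W V P) *ᵥ x := by
  funext i
  rw [dg, show Vᴴ * (P * diagonal (fun i => (x i : ℂ)) * Pᴴ) * V
    = (Vᴴ * P) * diagonal (fun i => (x i : ℂ)) * (Vᴴ * P)ᴴ by
    rw [conjTranspose_mul, conjTranspose_conjTranspose]; simp only [Matrix.mul_assoc]]
  rw [Matrix.mul_apply, Complex.re_sum, Matrix.mulVec, dotProduct]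
  refine Finset.sum_congr rfl fun j _ => ?_
  rw [Matrix.mul_diagonal, conjTranspose_apply, RCLike.star_def]
  simp only [W, Matrix.of_apply]
  rw [show (Vᴴ * P) i j * (x j : ℂ) * (starRingEnd ℂ) ((Vᴴ * P) i j)
    = ((x j : ℝ) : ℂ) * ((Vᴴ * P) i j * (starRingEnd ℂ) ((Vᴴ * P) i j)) by ring,
    Complex.mul_conj, ← Complex.ofReal_mul, Complex.ofReal_re, Complex.normSq_eq_norm_sq]
  ring

end Pool.Agent.K4H47.PM
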