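import Mathlib
import Pool.Agent.K4H47.PM.Core

set_option autoImplicit false

namespace Pool.Agent.K4H47.PM

open Matrix Finset
open scoped ComplexOrder

variable {n : ℕ}

/-- the two facts about `ℓ_q` -/
structure Facts (q : ENNReal) [Fact (1 ≤ q)] (n : ℕ) : Prop where
  ds : ∀ (W : Matrix (Fin n) (Fin n) ℝ), W ∈ doublyStochastic ℝ (Fin n) → ∀ x : Fin n → ℝ,
    lq q (W *ᵥ x) ≤ lq q x
  mono : ∀ x y : Fin n → ℝ, (∀ i, |x i| ≤ |y i|) → lq q x ≤ lq q y

variable {q : ENNReal} [Fact (1 ≤ q)]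

theorem lq_add (x y : Fin n → ℝ) : lq q (x + y) ≤ lq q x + lq q y := by
  unfold lq
  rw [WithLp.toLp_add]
  exact norm_add_le _ _

theorem lq_sub (x y : Fin n → ℝ) : lq q (x - y) ≤ lq q x + lq q y := by
  unfold lq
  rw [WithLp.toLp_sub]
  exact norm_sub_le _ _

theorem lq_smul (r : ℝ) (hr : 0 ≤ r) (x : Fin n → ℝ) : lq q (r • x) = r * lq q x := by
  unfold lq
  rw [WithLp.toLp_smul, norm_smul, Real.norm_of_nonneg hr]

theorem lq_nonneg (x : Fin n → ℝ) : 0 ≤ lq q x := norm_nonneg _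

/-- pinching -/
theorem pinch (F : Facts q n) {A : Matrix (Fin n) (Fin n) ℂ} (hA : A.IsHermitian)
    {V : Matrix (Fin n) (Fin n) ℂ} (hV : V * Vᴴ = 1) (hV' : Vᴴ * V = 1) :
    lq q (dg V A) ≤ lq q hA.eigenvalues := by
  have h := dg_diag V (U hA) hA.eigenvalues
  rw [← spec hA] at h
  rw [h]
  exact F.ds _ (W_ds hV (U_right hA) hV' (U_left hA)) _

/-- pinching of the square -/
theorem pinch_sq (F : Facts q n) {A : Matrix (Fin n) (Fin n) ℂ} (hA : A.IsHermitian)
    {V : Matrix (Fin n) (Fin n) ℂ} (hV : V * Vᴴ = 1) (hV' : Vᴴ * V = 1) :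
    lq q (dg V (A * A)) ≤ lq q (fun i => hA.eigenvalues i * hA.eigenvalues i) := by
  have h := dg_diag V (U hA) (fun i => hA.eigenvalues i * hA.eigenvalues i)
  have h2 : A * A = U hA * diagonal (fun i => ((hA.eigenvalues i * hA.eigenvalues i : ℝ) : ℂ))
      * (U hA)ᴴ := by
    have h3 := congrArg (fun B => B * B) (spec hA)
    refine h3.trans ?_
    show U hA * diagonal (fun i => (hA.eigenvalues i : ℂ)) * (U hA)ᴴ *
      (U hA * diagonal (fun i => (hA.eigenvalues i : ℂ)) * (U hA)ᴴ) = _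
    rw [show U hA * diagonal (fun i => (hA.eigenvalues i : ℂ)) * (U hA)ᴴ *
      (U hA * diagonal (fun i => (hA.eigenvalues i : ℂ)) * (U hA)ᴴ)
      = U hA * (diagonal (fun i => (hA.eigenvalues i : ℂ)) * ((U hA)ᴴ * U hA) *
        diagonal (fun i => (hA.eigenvalues i : ℂ))) * (U hA)ᴴ by
      simp only [Matrix.mul_assoc], U_left, Matrix.mul_one, diagonal_mul_diagonal]
    simp only [Complex.ofReal_mul]
  rw [h2, h]
  exact F.ds _ (W_ds hV (U_right hA) hV' (U_left hA)) _

/-- the diagonal entries of a positive semidefinite matrix in any basis are nonnegative -/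
theorem dg_nonneg {A : Matrix (Fin n) (Fin n) ℂ} (hA : A.PosSemidef) (V : Matrix (Fin n) (Fin n) ℂ)
    (i : Fin n) : 0 ≤ dg V A i := by
  have h := (hA.conjTranspose_mul_mul_same V)
  have h2 := h.diag_nonneg (i := i)
  exact (Complex.le_def.1 h2).1

/-- Powers-Størmer / Birman-Koplienko-Solomyak for the `ℓ_q` norms -/
theorem bks (F : Facts q n) {b c : Matrix (Fin n) (Fin n) ℂ} (hb : b.PosSemidef)
    (hc : c.PosSemidef) (hd : (c - b).IsHermitian) (hM : (c * c - b * b).IsHermitian) :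
    lq q (fun i => hd.eigenvalues i * hd.eigenvalues i) ≤ lq q hM.eigenvalues := by
  refine le_trans (F.mono _ (dg (U hd) (c * c - b * b)) fun i => ?_)
    (pinch F hM (U_right hd) (U_left hd))
  set V := U hd with hV
  set lam := hd.eigenvalues with hlam
  have h1 : Vᴴ * (c - b) = diagonal (fun i => (lam i : ℂ)) * Vᴴ := by
    rw [← spec' hd, Matrix.mul_assoc, ← hV, U_right, Matrix.mul_one]
  have h2 : (c - b) * V = V * diagonal (fun i => (lam i : ℂ)) := by
    rw [← spec' hd, ← hV, ← Matrix.mul_assoc, ← Matrix.mul_assoc, U_right, Matrix.one_mul]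
  have h3 : (2 : ℂ) • (c * c - b * b) = (c - b) * (c + b) + (c + b) * (c - b) := by
    rw [two_smul]
    noncomm_ring
  have h4 : 2 * dg V (c * c - b * b) i = 2 * (lam i * dg V (c + b) i) := by
    have e1 := congrFun (dg_smul V (c * c - b * b) 2) i
    have e2 : dg V ((c - b) * (c + b)) i = lam i * dg V (c + b) i := by
      unfold dg
      rw [← Matrix.mul_assoc, h1, Matrix.mul_assoc, Matrix.mul_assoc, Matrix.diagonal_mul,
        Complex.re_ofReal_mul, ← Matrix.mul_assoc]
    have e3 : dg V ((c + b) * (c - b)) i = lam i * dg V (c + b) i := by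
      unfold dg
      rw [Matrix.mul_assoc, Matrix.mul_assoc, h2, ← Matrix.mul_assoc, ← Matrix.mul_assoc,
        Matrix.mul_diagonal, mul_comm, Complex.re_ofReal_mul]
    have e4 : ((2 : ℝ) : ℂ) = (2 : ℂ) := by norm_num
    rw [e4, h3, dg_add] at e1
    simp only [Pi.add_apply, Pi.smul_apply, smul_eq_mul] at e1
    rw [e2, e3] at e1
    linarith
  have h5 : dg V (c * c - b * b) i = lam i * dg V (c + b) i := by linarith
  have h6 : lam i = dg V c i - dg V b i := by
    have := congrFun (dg_self hd) i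
    rw [dg_sub] at this
    exact this.symm
  have h7 : dg V (c + b) i = dg V c i + dg V b i := by rw [dg_add]; rfl
  have hc0 := dg_nonneg hc V i
  have hb0 := dg_nonneg hb V i
  rw [h5, h7, abs_mul, abs_mul]
  apply mul_le_mul_of_nonneg_left _ (abs_nonneg _)
  rw [abs_of_nonneg (add_nonneg hc0 hb0), h6, abs_le]
  constructor <;> linarith

/-- the segment of square roots -/
theorem core (F : Facts q n) {a b : Matrix (Fin n) (Fin n) ℂ} (ha : a.PosSemidef)
    (hb : b.PosSemidef) {s t : ℝ} (hs : 0 ≤ s) (hst : s ≤ t) (ht : t ≤ 1)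
    (c : ℝ → Matrix (Fin n) (Fin n) ℂ) (hc : ∀ r, c r = (r : ℂ) • a + ((1 - r : ℝ) : ℂ) • b)
    (hMs : (c s * c s - b * b).IsHermitian) (hMt : (c t * c t - b * b).IsHermitian) :
    lq q hMs.eigenvalues ≤ lq q hMt.eigenvalues := by
  rcases (hs.trans hst).eq_or_lt with h0 | h0
  · have : s = t := by linarith
    subst this
    exact le_rfl
  have hct : (c t).PosSemidef := by
    rw [hc]
    exact (ha.smul (by exact_mod_cast h0.le)).add (hb.smul (by
      have : (0 : ℝ) ≤ 1 - t := by linarith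
      exact_mod_cast this))
  have hdt : (c t - b).IsHermitian := hct.isHermitian.sub hb.isHermitian
  set V := U hMs with hV
  have hVV : V * Vᴴ = 1 := U_right hMs
  have hVV' : Vᴴ * V = 1 := U_left hMs
  -- M_s = (s/t) M_t - (s/t)(1 - s/t) (c_t - b)^2
  set x := s / t with hx
  have hxt : x * t = s := by rw [hx]; field_simp
  have hx0 : 0 ≤ x := div_nonneg hs h0.le
  have hx1 : x ≤ 1 := by rw [hx, div_le_one h0]; exact hst
  have hcs : c s = (x : ℂ) • c t + ((1 - x : ℝ) : ℂ) • b := by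
    rw [hc s, hc t, ← hxt]
    simp only [smul_add, smul_smul]
    push_cast
    rw [add_assoc, ← add_smul]
    congr 2
    ring
  have hM : c s * c s - b * b = (x : ℂ) • (c t * c t - b * b)
      - ((x * (1 - x) : ℝ) : ℂ) • ((c t - b) * (c t - b)) := by
    rw [hcs]
    simp only [Matrix.add_mul, Matrix.mul_add, Matrix.smul_mul, Matrix.mul_smul, Matrix.sub_mul,
      Matrix.mul_sub, smul_smul, smul_sub]
    push_cast
    module
  have h1 : hMs.eigenvalues = x • dg V (c t * c t - b * b)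
      - (x * (1 - x)) • dg V ((c t - b) * (c t - b)) := by
    rw [← dg_self hMs, ← hV]
    rw [← dg_smul, ← dg_smul, ← dg_sub, ← hM]
  have h2 : lq q (dg V (c t * c t - b * b)) ≤ lq q hMt.eigenvalues := pinch F hMt hVV hVV'
  have h3 : lq q (dg V ((c t - b) * (c t - b))) ≤ lq q hMt.eigenvalues :=
    (pinch_sq F hdt hVV hVV').trans (bks F hb hct hdt hMt)
  have hN : 0 ≤ lq q hMt.eigenvalues := lq_nonneg _
  rw [h1]
  refine (lq_sub _ _).trans ?_
  rw [lq_smul _ hx0, lq_smul _ (mul_nonneg hx0 (by linarith))]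
  have e1 := mul_le_mul_of_nonneg_left h2 hx0
  have e2 := mul_le_mul_of_nonneg_left h3 (mul_nonneg hx0 (by linarith : (0 : ℝ) ≤ 1 - x))
  nlinarith [mul_nonneg hN (sq_nonneg (1 - x))]

end Pool.Agent.K4H47.PM
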