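import Mathlib
import Pool.Agent.K4H47.PM.Main

set_option autoImplicit false

namespace Pool.Agent.K4H47.PM

open Matrix Finset
open scoped ComplexOrder

variable {n : ℕ}

/-- the weighted power mean `μ_t(X,Y) = (t X^p + (1-t) Y^p)^{1/p}` -/
noncomputable def mu (p t : ℝ) (X Y : Matrix (Fin n) (Fin n) ℂ) : Matrix (Fin n) (Fin n) ℂ :=
  cfc (fun x : ℝ => x ^ (1 / p))
    ((t : ℂ) • cfc (fun x : ℝ => x ^ p) X + ((1 - t : ℝ) : ℂ) • cfc (fun x : ℝ => x ^ p) Y)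

theorem rt_herm (X : Matrix (Fin n) (Fin n) ℂ) :
    (cfc (fun x : ℝ => x ^ (1 / 2 : ℝ)) X).IsHermitian :=
  cfc_predicate (p := IsSelfAdjoint) _ X

theorem cfc_two (B : Matrix (Fin n) (Fin n) ℂ) (hB : B.IsHermitian) :
    cfc (fun x : ℝ => x ^ (1 / (1 / 2 : ℝ))) B = B * B := by
  have h1 : (fun x : ℝ => x ^ (1 / (1 / 2 : ℝ))) = fun x : ℝ => x ^ 2 := by
    funext x
    rw [show (1 / (1 / 2 : ℝ)) = ((2 : ℕ) : ℝ) by norm_num, Real.rpow_natCast]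
  have hs : IsSelfAdjoint B := hB
  rw [h1, cfc_pow_id (R := ℝ) B 2, pow_two]

theorem rt_sq (X : Matrix (Fin n) (Fin n) ℂ) (hX : X.PosSemidef) :
    cfc (fun x : ℝ => x ^ (1 / 2 : ℝ)) X * cfc (fun x : ℝ => x ^ (1 / 2 : ℝ)) X = X := by
  have hs : IsSelfAdjoint X := hX.isHermitian
  have hf : ContinuousOn (fun x : ℝ => x ^ (1 / 2 : ℝ)) (spectrum ℝ X) :=
    (Real.continuous_rpow_const (by norm_num)).continuousOn
  rw [← cfc_mul (fun x : ℝ => x ^ (1 / 2 : ℝ)) (fun x : ℝ => x ^ (1 / 2 : ℝ)) X hf hf]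
  have h2 : cfc (fun x : ℝ => x ^ (1 / 2 : ℝ) * x ^ (1 / 2 : ℝ)) X = cfc (fun x : ℝ => x) X := by
    apply cfc_congr
    intro x hx
    have hx0 : 0 ≤ x := by
      rw [hX.isHermitian.spectrum_real_eq_range_eigenvalues] at hx
      obtain ⟨i, rfl⟩ := hx
      exact hX.eigenvalues_nonneg i
    show x ^ (1 / 2 : ℝ) * x ^ (1 / 2 : ℝ) = x
    rw [← Real.sqrt_eq_rpow, Real.mul_self_sqrt hx0]
  rw [h2]
  exact cfc_id' ℝ X

theorem rt_psd (X : Matrix (Fin n) (Fin n) ℂ) (hX : X.PosSemidef) :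
    (cfc (fun x : ℝ => x ^ (1 / 2 : ℝ)) X).PosSemidef := by
  have hs : IsSelfAdjoint X := hX.isHermitian
  have hf : ContinuousOn (fun x : ℝ => x ^ (1 / 4 : ℝ)) (spectrum ℝ X) :=
    (Real.continuous_rpow_const (by norm_num)).continuousOn
  have h1 : cfc (fun x : ℝ => x ^ (1 / 2 : ℝ)) X
      = cfc (fun x : ℝ => x ^ (1 / 4 : ℝ)) X * cfc (fun x : ℝ => x ^ (1 / 4 : ℝ)) X := by
    rw [← cfc_mul (fun x : ℝ => x ^ (1 / 4 : ℝ)) (fun x : ℝ => x ^ (1 / 4 : ℝ)) X hf hf]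
    apply cfc_congr
    intro x hx
    have hx0 : 0 ≤ x := by
      rw [hX.isHermitian.spectrum_real_eq_range_eigenvalues] at hx
      obtain ⟨i, rfl⟩ := hx
      exact hX.eigenvalues_nonneg i
    show x ^ (1 / 2 : ℝ) = x ^ (1 / 4 : ℝ) * x ^ (1 / 4 : ℝ)
    rw [← Real.rpow_add_of_nonneg hx0 (by norm_num) (by norm_num)]
    norm_num
  have h2 : (cfc (fun x : ℝ => x ^ (1 / 4 : ℝ)) X)ᴴ = cfc (fun x : ℝ => x ^ (1 / 4 : ℝ)) X :=
    cfc_predicate (p := IsSelfAdjoint) _ X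
  rw [h1]
  nth_rewrite 1 [← h2]
  exact Matrix.posSemidef_conjTranspose_mul_self _

/-- monotonicity, for the `ℓ_q` norm of the eigenvalues -/
theorem mono_half {q : ENNReal} [Fact (1 ≤ q)] (F : Facts q n) (X Y : Matrix (Fin n) (Fin n) ℂ)
    (hX : X.PosSemidef) (hY : Y.PosSemidef) {s t : ℝ} (hs : 0 ≤ s) (hst : s ≤ t) (ht : t ≤ 1) :
    ∃ (hMs : (mu (1 / 2) s X Y - Y).IsHermitian) (hMt : (mu (1 / 2) t X Y - Y).IsHermitian),
      lq q hMs.eigenvalues ≤ lq q hMt.eigenvalues := by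
  set a := cfc (fun x : ℝ => x ^ (1 / 2 : ℝ)) X with ha
  set b := cfc (fun x : ℝ => x ^ (1 / 2 : ℝ)) Y with hb
  have hap : a.PosSemidef := rt_psd X hX
  have hbp : b.PosSemidef := rt_psd Y hY
  set c : ℝ → Matrix (Fin n) (Fin n) ℂ := fun r => (r : ℂ) • a + ((1 - r : ℝ) : ℂ) • b with hc
  have hcH : ∀ r, (c r).IsHermitian := by
    intro r
    rw [hc]
    show ((r : ℂ) • a + ((1 - r : ℝ) : ℂ) • b)ᴴ = _
    rw [conjTranspose_add, conjTranspose_smul, conjTranspose_smul, hap.isHermitian.eq,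
      hbp.isHermitian.eq]
    simp
  have hmu : ∀ r, mu (1 / 2) r X Y - Y = c r * c r - b * b := by
    intro r
    have h1 : mu (1 / 2) r X Y = c r * c r := by
      unfold mu
      rw [← ha, ← hb]
      exact cfc_two _ (hcH r)
    rw [h1, hb, rt_sq Y hY]
  have hH : ∀ r, (c r * c r - b * b).IsHermitian := by
    intro r
    show (c r * c r - b * b)ᴴ = _
    rw [conjTranspose_sub, conjTranspose_mul, conjTranspose_mul, (hcH r).eq, hbp.isHermitian.eq]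
  have h := core F hap hbp hs hst ht c (fun r => rfl) (hH s) (hH t)
  refine ⟨by rw [hmu]; exact hH s, by rw [hmu]; exact hH t, ?_⟩
  have key : ∀ (A B : Matrix (Fin n) (Fin n) ℂ) (hA : A.IsHermitian) (hB : B.IsHermitian),
      A = B → lq q hA.eigenvalues = lq q hB.eigenvalues := by
    rintro A B hA hB rfl
    rfl
  rw [key _ _ _ (hH s) (hmu s), key _ _ _ (hH t) (hmu t)]
  exact h

end Pool.Agent.K4H47.PM
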